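import Pool.Agent.V8H44.LC.Dyn

/-!
The rule with one-sided context.
-/

set_option autoImplicit false

namespace Pool.Agent.V8H44.LC

open Pool.Agent.V8H44.TS Pool.Agent.V8H41.DG

/-- letters: letter of the original word, head, moving letter, first, last, new -/
abbrev B (d k : ℕ) : Type :=
  Option (Fin d × Option (Fin k × Bool) × Option (Fin d) × Bool × Bool × Bool)

variable {d k : ℕ}

/-- the letter which moves to the right -/
def mvl (P : Proc d k) : B d k → Option (Fin d)
  | some (c, some (z, false), _, _, _, _) => some (P.o z c)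
  | some (_, _, s, _, _, _) => s
  | none => none

/-- the head which moves to the right -/
def hdl (P : Proc d k) : B d k → Option (Fin k × Bool)
  | some (c, some (z, true), _, _, _, _) =>
      if P.adv z c = true then some (P.nxt z c, false) else none
  | _ => none

/-- the head which does not move -/
def hdo (P : Proc d k) (c : Fin d) : Option (Fin k × Bool) → Option (Fin k × Bool)
  | some (z, false) => some (z, true)
  | some (z, true) => if P.adv z c = true then none else some (P.nxt z c, false)
  | none => none

/-- the new letter at the end -/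
def nwl (P : Proc d k) : B d k → Option (Fin d)
  | some (c, h, s, f, true, n) => mvl P (some (c, h, s, f, true, n))
  | _ => none

/-- the rule -/
def oB (P : Proc d k) (X : List (B d k)) (q : B d k) : B d k → List (B d k)
  | none => none :: X
  | some (c, h, s, f, l, n) =>
    some (c, (hdo P c h).or (if f = true then none else hdl P q),
      if f = true then none else mvl P q, f, l && (nwl P (some (c, h, s, f, l, n))).isNone,
      false) ::
    ((nwl P (some (c, h, s, f, l, n))).map fun e => (some (e, none, none, false, true, true) :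
      B d k)).toList

theorem oB_ne (P : Proc d k) (X : List (B d k)) (q x : B d k) : oB P X q x ≠ [] := by
  rcases x with _ | ⟨c, h, s, f, l, n⟩ <;> simp [oB]

section

variable {P : Proc d k} {m0 : ℕ} {w : ℕ → Fin d} {p : ℕ → ℕ} {z : ℕ → Fin k}

/-- the head -/
def hd (p : ℕ → ℕ) (z : ℕ → Fin k) (t r : ℕ) : Option (Fin k × Bool) :=
  if r = p (t / 2) then some (z (t / 2), decide (t % 2 = 1)) else none

/-- the length one round before -/
def Ep (m0 : ℕ) (w : ℕ → Fin d) (p : ℕ → ℕ) : ℕ → ℕ
  | 0 => 0
  | t + 1 => EE m0 w p t

/-- the letter at the position `r` at the time `t` -/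
def cell (m0 : ℕ) (w : ℕ → Fin d) (p : ℕ → ℕ) (z : ℕ → Fin k) (t r : ℕ) : B d k :=
  some (w r, hd p z t r, (dyn m0 w p t).2 r, decide (r = 0), decide (r + 1 = EE m0 w p t),
    decide (Ep m0 w p t ≤ r))

theorem mvl_cell (hR : Run P m0 w p z) (t r : ℕ) :
    mvl P (cell m0 w p z t r) = src m0 w p t (dyn m0 w p t).2 r := by
  unfold cell hd src
  by_cases h1 : r = p (t / 2)
  · rw [if_pos h1]
    by_cases h2 : t % 2 = 1
    · rw [if_neg (by omega), decide_eq_true h2]
      rfl
    · rw [if_pos ⟨by omega, h1.symm⟩, decide_eq_false h2, hR.hw (t / 2), h1]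
      rfl
  · rw [if_neg h1, if_neg (by rintro ⟨_, h3⟩; exact h1 h3.symm)]
    rfl

theorem head_cell (hR : Run P m0 w p z) (t r : ℕ) (q : B d k) :
    (hdo P (w r) (hd p z t r)).or (if decide (r = 0) = true then none else
      hdl P (if r = 0 then q else cell m0 w p z t (r - 1))) = hd p z (t + 1) r := by
  have e1 : ∀ s, hdl P (cell m0 w p z t s) =
      if t % 2 = 1 ∧ s = p (t / 2) ∧ P.adv (z (t / 2)) (w s) = true then
        some (z (t / 2 + 1), false) else none := by
    intro s
    unfold cell hd
    by_cases h1 : s = p (t / 2)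
    · rw [if_pos h1]
      by_cases h2 : t % 2 = 1
      · rw [decide_eq_true h2]
        show (if P.adv (z (t / 2)) (w s) = true then
          some (P.nxt (z (t / 2)) (w s), false) else none) = _
        rw [hR.hz (t / 2), ← h1]
        by_cases h3 : P.adv (z (t / 2)) (w s) = true
        · rw [if_pos h3, if_pos ⟨h2, h1 ▸ rfl, h3⟩]
        · rw [if_neg h3, if_neg (fun h => h3 h.2.2)]
      · rw [decide_eq_false h2, if_neg (fun h => h2 h.1)]
        rfl
    · rw [if_neg h1, if_neg (fun h => h1 h.2.1)]
      rfl
  rcases Nat.even_or_odd t with ⟨j, hj⟩ | ⟨j, hj⟩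
  · have h1 : t / 2 = j := by omega
    have h2 : (t + 1) / 2 = j := by omega
    have h3 : ¬ t % 2 = 1 := by omega
    have h4 : (t + 1) % 2 = 1 := by omega
    have e2 : (if decide (r = 0) = true then none else
        hdl P (if r = 0 then q else cell m0 w p z t (r - 1))) = none := by
      by_cases h5 : r = 0
      · rw [decide_eq_true h5, if_pos rfl]
      · rw [decide_eq_false h5, if_neg (by simp), if_neg h5, e1, if_neg (fun h => h3 h.1)]
    rw [e2]
    unfold hd
    rw [h1, h2, decide_eq_false h3, decide_eq_true h4]
    by_cases h5 : r = p j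
    · rw [if_pos h5, if_pos h5]
      rfl
    · rw [if_neg h5, if_neg h5]
      rfl
  · have h1 : t / 2 = j := by omega
    have h2 : (t + 1) / 2 = j + 1 := by omega
    have h3 : t % 2 = 1 := by omega
    have h4 : ¬ (t + 1) % 2 = 1 := by omega
    have h6 := hR.hp j
    have h7 := hR.hz j
    by_cases h5 : r = p j
    · have e2 : (if decide (r = 0) = true then none else
          hdl P (if r = 0 then q else cell m0 w p z t (r - 1))) = none := by
        by_cases h5' : r = 0
        · rw [decide_eq_true h5', if_pos rfl]
        · rw [decide_eq_false h5', if_neg (by simp), if_neg h5', e1,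
            if_neg (by rintro ⟨_, h, _⟩; rw [h1] at h; omega)]
      rw [e2]
      unfold hd
      rw [h1, h2, decide_eq_true h3, decide_eq_false h4, if_pos h5]
      show (if P.adv (z j) (w r) = true then none else some (P.nxt (z j) (w r), false)).or none = _
      rw [h5, h7]
      by_cases h8 : P.adv (z j) (w (p j)) = true
      · rw [if_pos h8] at h6
        rw [if_pos h8, if_neg (by omega)]
        rfl
      · rw [if_neg h8] at h6
        rw [if_neg h8, if_pos h6.symm]
        rfl
    · have e3 : hdo P (w r) (hd p z t r) = none := by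
        unfold hd
        rw [h1, if_neg h5]
        rfl
      rw [e3, Option.none_or]
      unfold hd
      rw [h2, decide_eq_false h4]
      by_cases h5' : r = 0
      · rw [decide_eq_true h5', if_pos rfl, if_neg]
        intro h9
        have := (p_succ hR j).1
        omega
      · rw [decide_eq_false h5', if_neg (by simp), if_neg h5', e1, h1]
        by_cases h8 : r - 1 = p j ∧ P.adv (z j) (w (r - 1)) = true
        · rw [if_pos ⟨h3, h8⟩]
          obtain ⟨h8a, h8b⟩ := h8
          rw [h8a] at h8b
          rw [if_pos h8b] at h6
          rw [if_pos (by omega)]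
        · rw [if_neg (fun h => h8 h.2)]
          split_ifs at h6 with h9
          · rw [if_neg]
            intro h10
            have h11 : r - 1 = p j := by omega
            rw [h11] at h8
            exact h8 ⟨rfl, h9⟩
          · rw [if_neg (by omega)]

theorem g_cell (hR : Run P m0 w p z) (t r : ℕ) (q : B d k) (hr : r < EE m0 w p t) :
    (if decide (r = 0) = true then none else
      mvl P (if r = 0 then q else cell m0 w p z t (r - 1))) = (dyn m0 w p (t + 1)).2 r := by
  rw [dyn]
  show _ = if 0 < r ∧ r < (dyn m0 w p t).1 then src m0 w p t (dyn m0 w p t).2 (r - 1) else none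
  by_cases h5 : r = 0
  · rw [decide_eq_true h5, if_pos rfl, if_neg (by omega)]
  · have hr' : r < (dyn m0 w p t).1 := hr
    rw [decide_eq_false h5, if_neg (by simp), if_neg h5, mvl_cell hR, if_pos ⟨by omega, hr'⟩]

theorem nwl_cell (hR : Run P m0 w p z) (t r : ℕ) : nwl P (cell m0 w p z t r) =
    if r + 1 = EE m0 w p t then src m0 w p t (dyn m0 w p t).2 r else none := by
  rw [← mvl_cell hR]
  unfold cell
  by_cases h : r + 1 = EE m0 w p t
  · rw [if_pos h, decide_eq_true h]
    rfl
  · rw [if_neg h, decide_eq_false h]
    rfl

theorem row (hR : Run P m0 w p z) (X : List (B d k)) (t r : ℕ) (q : B d k)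
    (hr : r < EE m0 w p t) :
    oB P X (if r = 0 then q else cell m0 w p z t (r - 1)) (cell m0 w p z t r) =
      cell m0 w p z (t + 1) r ::
        (if r + 1 = EE m0 w p t ∧ EE m0 w p (t + 1) = EE m0 w p t + 1 then
          [cell m0 w p z (t + 1) (EE m0 w p t)] else []) := by
  have h1 := head_cell hR t r q
  have h2 := g_cell hR t r q hr
  have h3 := nwl_cell hR t r
  have hdy : EE m0 w p (t + 1) = if (src m0 w p t (dyn m0 w p t).2
      (EE m0 w p t - 1)).isSome = true then EE m0 w p t + 1 else EE m0 w p t := rfl
  show some (w r, (hdo P (w r) (hd p z t r)).or (if decide (r = 0) = true then none else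
      hdl P (if r = 0 then q else cell m0 w p z t (r - 1))),
      if decide (r = 0) = true then none else
        mvl P (if r = 0 then q else cell m0 w p z t (r - 1)), decide (r = 0),
        decide (r + 1 = EE m0 w p t) && (nwl P (cell m0 w p z t r)).isNone, false) ::
    ((nwl P (cell m0 w p z t r)).map fun e => (some (e, none, none, false, true, true) :
      B d k)).toList = _
  rw [h1, h2, h3]
  have h4 : decide (Ep m0 w p (t + 1) ≤ r) = false := by
    rw [decide_eq_false_iff_not]
    show ¬ EE m0 w p t ≤ r
    omega
  by_cases h5 : r + 1 = EE m0 w p t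
  · rw [if_pos h5, decide_eq_true h5]
    have h6 : EE m0 w p t - 1 = r := by omega
    rw [h6] at hdy
    cases hs : src m0 w p t (dyn m0 w p t).2 r with
    | none =>
      rw [hs] at hdy
      have h7 : EE m0 w p (t + 1) = EE m0 w p t := hdy
      rw [if_neg (by omega)]
      unfold cell
      rw [h4, h7, decide_eq_true h5]
      rfl
    | some c =>
      rw [hs] at hdy
      have h7 : EE m0 w p (t + 1) = EE m0 w p t + 1 := hdy
      rw [if_pos ⟨h5, h7⟩]
      have h8 : c = w (EE m0 w p t) := by
        have h9 := inv hR t
        change Inv m0 w p t (EE m0 w p t) _ at h9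
        obtain ⟨j, _, _, _, h10⟩ := h9.last hR c (by rw [h6]; exact hs)
        exact h10
      unfold cell
      have h9 : ¬ r + 1 = EE m0 w p (t + 1) := by omega
      have h10 : hd p z (t + 1) (EE m0 w p t) = none := by
        unfold hd
        rw [if_neg]
        have := head_lt' hR t
        omega
      have h11 : (dyn m0 w p (t + 1)).2 (EE m0 w p t) = none := by
        rw [dyn]
        show (if 0 < EE m0 w p t ∧ EE m0 w p t < EE m0 w p t then _ else none) = _
        rw [if_neg (by omega)]
      have h12 : ¬ EE m0 w p t = 0 := by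
        have := EE_pos hR t
        omega
      have h13 : decide (Ep m0 w p (t + 1) ≤ EE m0 w p t) = true := decide_eq_true le_rfl
      rw [h4, h10, h11, h13, decide_eq_false h9, decide_eq_false h12, decide_eq_true h7.symm,
        ← h8]
      rfl
  · rw [if_neg h5, decide_eq_false h5, if_neg (fun h => h5 h.1)]
    unfold cell
    have h9 : ¬ r + 1 = EE m0 w p (t + 1) := by
      rcases EE_succ (m0 := m0) (w := w) (p := p) t with h6 | h6 <;> omega
    rw [h4, decide_eq_false h9]
    rfl

theorem T_range {L : Type} (out : L → L → List L) (q : L) (f f' : ℕ → L) (n : ℕ)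
    (h : ∀ r, r < n → out (if r = 0 then q else f (r - 1)) (f r) = [f' r]) :
    T (fun _ x => x) out q ((List.range n).map f) = (List.range n).map f' ∧
      dl (fun _ x => x) q ((List.range n).map f) = if n = 0 then q else f (n - 1) := by
  induction n with
  | zero => exact ⟨rfl, rfl⟩
  | succ n ih =>
    obtain ⟨h1, h2⟩ := ih fun r hr => h r (Nat.lt_succ_of_lt hr)
    rw [List.range_succ, List.map_append, T_append, dl_append, h1, h2]
    have h3 := h n (Nat.lt_succ_self n)
    constructor
    · rw [List.map_append]
      congr 1
      show out _ (f n) ++ [] = [f' n]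
      rw [h3]
      rfl
    · rfl

/-- the configurations -/
def XB (m0 : ℕ) (w : ℕ → Fin d) (p : ℕ → ℕ) (z : ℕ → Fin k) (t : ℕ) : List (B d k) :=
  (List.range (EE m0 w p t)).map (cell m0 w p z t)

theorem XB_step (hR : Run P m0 w p z) (X : List (B d k)) (t : ℕ) (q : B d k) :
    T (fun _ x => x) (oB P X) q (XB m0 w p z t) = XB m0 w p z (t + 1) := by
  obtain ⟨n, hn⟩ : ∃ n, EE m0 w p t = n + 1 := ⟨EE m0 w p t - 1, by
    have := EE_pos hR t
    omega⟩
  obtain ⟨h1, h2⟩ := T_range (oB P X) q (cell m0 w p z t) (cell m0 w p z (t + 1)) n (by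
    intro r hr
    rw [row hR X t r q (by omega), if_neg (by omega)])
  unfold XB
  rw [hn, List.range_succ, List.map_append, T_append, h1, h2]
  show _ ++ (oB P X _ (cell m0 w p z t n) ++ []) = _
  rw [List.append_nil, row hR X t n q (by omega)]
  rcases EE_succ (m0 := m0) (w := w) (p := p) t with h3 | h3
  · rw [if_neg (by omega), h3, hn, List.range_succ, List.map_append]
    rfl
  · rw [if_pos ⟨hn.symm, h3⟩, h3, hn, List.range_succ, List.range_succ, List.map_append,
      List.map_append]
    simp

end

end Pool.Agent.V8H44.LC
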