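import Pool.Agent.V8H44.TS.Two

/-!
Letters which move to the right one position in each round.
-/

set_option autoImplicit false

namespace Pool.Agent.V8H44.LC

open Pool.Agent.V8H44.TS

section

variable {d : ℕ} (m0 : ℕ) (w : ℕ → Fin d) (p : ℕ → ℕ)

/-- what moves from the position `r` to the right in the round `t` -/
def src (t : ℕ) (g : ℕ → Option (Fin d)) (r : ℕ) : Option (Fin d) :=
  if t % 2 = 0 ∧ p (t / 2) = r then some (w (m0 + t / 2)) else g r

/-- the length and the moving letters at the time `t` -/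
def dyn : ℕ → ℕ × (ℕ → Option (Fin d))
  | 0 => (m0, fun _ => none)
  | t + 1 => (if (src m0 w p t (dyn t).2 ((dyn t).1 - 1)).isSome = true then (dyn t).1 + 1
      else (dyn t).1,
      fun r => if 0 < r ∧ r < (dyn t).1 then src m0 w p t (dyn t).2 (r - 1) else none)

/-- the invariant -/
structure Inv (t E : ℕ) (g : ℕ → Option (Fin d)) : Prop where
  a : ∀ r c, g r = some c → r < E ∧ ∃ i, E ≤ m0 + i ∧ 2 * i < t ∧ r = p i + (t - 2 * i) ∧
    c = w (m0 + i)
  b : ∀ i, E ≤ m0 + i → 2 * i < t → p i + (t - 2 * i) < E ∧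
    g (p i + (t - 2 * i)) = some (w (m0 + i))
  c : m0 ≤ E
  e : 2 * E ≤ t + 1 + 2 * m0

end

section

variable {d k : ℕ} {P : Proc d k} {m0 : ℕ} {w : ℕ → Fin d} {p : ℕ → ℕ} {z : ℕ → Fin k}

theorem p_succ (hR : Run P m0 w p z) (j : ℕ) : p j ≤ p (j + 1) ∧ p (j + 1) ≤ p j + 1 := by
  rw [hR.hp j]
  split_ifs <;> omega

theorem p_dec (hR : Run P m0 w p z) {i j : ℕ} (h : i ≤ j) : p j + i ≤ p i + j := by
  induction h with
  | refl => exact le_rfl
  | @step m _ ih =>
    have := (p_succ hR m).2
    show p (m + 1) + i ≤ p i + (m + 1)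
    omega

theorem Inv.some_src (hR : Run P m0 w p z) {t E : ℕ} {g : ℕ → Option (Fin d)}
    (h : Inv m0 w p t E g) (i : ℕ) (h1 : E ≤ m0 + i) (h2 : 2 * i ≤ t) :
    p i + (t - 2 * i) < E ∧ src m0 w p t g (p i + (t - 2 * i)) = some (w (m0 + i)) := by
  rcases Nat.lt_or_ge (2 * i) t with h3 | h3
  · obtain ⟨h4, h5⟩ := h.b i h1 h3
    refine ⟨h4, ?_⟩
    unfold src
    rw [if_neg ?_, h5]
    rintro ⟨h6, h7⟩
    have h8 := p_dec hR (show i ≤ t / 2 by omega)
    omega
  · have h4 : t = 2 * i := by omega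
    subst h4
    have h5 : p i < E := by
      obtain ⟨j, hj⟩ := Nat.exists_eq_add_of_le h.c
      rcases Nat.lt_or_ge j i with h6 | h6
      · have h7 := (h.b j (by omega) (by omega)).1
        have h8 := p_dec hR h6.le
        omega
      · have h7 : j = i := by omega
        subst h7
        have := hR.hlt j
        omega
    have h6 : 2 * i - 2 * i = 0 := by omega
    have h7 : 2 * i / 2 = i := by omega
    rw [h6, Nat.add_zero]
    refine ⟨h5, ?_⟩
    unfold src
    rw [h7, if_pos ⟨by omega, rfl⟩]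

theorem Inv.src_some (hR : Run P m0 w p z) {t E : ℕ} {g : ℕ → Option (Fin d)}
    (h : Inv m0 w p t E g) (r : ℕ) (c : Fin d) (h1 : src m0 w p t g r = some c) :
    r < E ∧ ∃ i, E ≤ m0 + i ∧ 2 * i ≤ t ∧ r = p i + (t - 2 * i) ∧ c = w (m0 + i) := by
  by_cases h2 : t % 2 = 0 ∧ p (t / 2) = r
  · have h3 : E ≤ m0 + t / 2 := by
      have := h.e
      omega
    have h4 := h.some_src hR (t / 2) h3 (by omega)
    have h5 : t - 2 * (t / 2) = 0 := by omega
    rw [h5, Nat.add_zero, h2.2] at h4
    refine ⟨h4.1, t / 2, h3, by omega, by rw [h5, Nat.add_zero, h2.2], ?_⟩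
    rw [h4.2] at h1
    exact (Option.some.inj h1).symm
  · unfold src at h1
    rw [if_neg h2] at h1
    obtain ⟨h3, i, h4, h5, h6, h7⟩ := h.a r c h1
    exact ⟨h3, i, h4, h5.le, h6, h7⟩

/-- the letter which arrives at the end -/
theorem Inv.last (hR : Run P m0 w p z) {t E : ℕ} {g : ℕ → Option (Fin d)}
    (h : Inv m0 w p t E g) (c : Fin d) (h1 : src m0 w p t g (E - 1) = some c) :
    ∃ j, E = m0 + j ∧ 2 * j ≤ t ∧ E - 1 = p j + (t - 2 * j) ∧ c = w E := by
  obtain ⟨h2, i, h3, h4, h5, h6⟩ := h.src_some hR _ _ h1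
  obtain ⟨j, hj⟩ := Nat.exists_eq_add_of_le h.c
  have hij : i = j := by
    by_contra hcon
    have h7 : j < i := by omega
    have h8 := (h.some_src hR j (by omega) (by omega)).1
    have h9 := p_dec hR h7.le
    omega
  subst hij
  exact ⟨i, hj, h4, h5, by rw [hj]; exact h6⟩

theorem Inv.step (hR : Run P m0 w p z) {t E : ℕ} {g : ℕ → Option (Fin d)}
    (h : Inv m0 w p t E g) : Inv m0 w p (t + 1)
      (if (src m0 w p t g (E - 1)).isSome = true then E + 1 else E)
      (fun r => if 0 < r ∧ r < E then src m0 w p t g (r - 1) else none) := by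
  have hE : 0 < E := by
    have h1 := hR.hlt 0
    have := h.c
    omega
  by_cases h1 : (src m0 w p t g (E - 1)).isSome = true
  · rw [if_pos h1]
    obtain ⟨c, hc⟩ := Option.isSome_iff_exists.1 h1
    obtain ⟨j, h2, h3, h4, h5⟩ := h.last hR c hc
    refine ⟨?_, ?_, ?_, ?_⟩
    · intro r c' h6
      by_cases h7 : 0 < r ∧ r < E
      · rw [if_pos h7] at h6
        obtain ⟨h8, i, h9, h10, h11, h12⟩ := h.src_some hR _ _ h6
        have h13 : i ≠ j := by
          intro h14
          subst h14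
          omega
        exact ⟨by omega, i, by omega, by omega, by omega, h12⟩
      · rw [if_neg h7] at h6
        exact absurd h6 (by simp)
    · intro i h6 h7
      have h8 := h.some_src hR i (by omega) (by omega)
      have h9 := p_dec hR (show j ≤ i by omega)
      have h10 : 0 < p i + (t + 1 - 2 * i) ∧ p i + (t + 1 - 2 * i) < E := by omega
      refine ⟨by omega, ?_⟩
      show (if 0 < p i + (t + 1 - 2 * i) ∧ p i + (t + 1 - 2 * i) < E then
        src m0 w p t g (p i + (t + 1 - 2 * i) - 1) else none) = _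
      rw [if_pos h10, ← h8.2]
      congr 1
      omega
    · have := h.c
      omega
    · omega
  · rw [if_neg h1]
    refine ⟨?_, ?_, h.c, ?_⟩
    · intro r c' h6
      by_cases h7 : 0 < r ∧ r < E
      · rw [if_pos h7] at h6
        obtain ⟨h8, i, h9, h10, h11, h12⟩ := h.src_some hR _ _ h6
        exact ⟨by omega, i, by omega, by omega, by omega, h12⟩
      · rw [if_neg h7] at h6
        exact absurd h6 (by simp)
    · intro i h6 h7
      have h8 := h.some_src hR i (by omega) (by omega)
      have h9 : p i + (t - 2 * i) ≠ E - 1 := by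
        intro h10
        rw [h10] at h8
        rw [h8.2] at h1
        simp at h1
      have h10 : 0 < p i + (t + 1 - 2 * i) ∧ p i + (t + 1 - 2 * i) < E := by omega
      refine ⟨by omega, ?_⟩
      show (if 0 < p i + (t + 1 - 2 * i) ∧ p i + (t + 1 - 2 * i) < E then
        src m0 w p t g (p i + (t + 1 - 2 * i) - 1) else none) = _
      rw [if_pos h10, ← h8.2]
      congr 1
      omega
    · have := h.e
      omega

theorem inv (hR : Run P m0 w p z) (t : ℕ) :
    Inv m0 w p t (dyn m0 w p t).1 (dyn m0 w p t).2 := by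
  induction t with
  | zero =>
    refine ⟨?_, ?_, le_rfl, ?_⟩
    · intro r c h
      exact absurd h (by simp [dyn])
    · intro i _ h
      omega
    · show 2 * m0 ≤ 0 + 1 + 2 * m0
      omega
  | succ t ih => exact ih.step hR

/-- the length -/
def EE (m0 : ℕ) (w : ℕ → Fin d) (p : ℕ → ℕ) (t : ℕ) : ℕ := (dyn m0 w p t).1

theorem EE_succ (t : ℕ) : EE m0 w p (t + 1) = EE m0 w p t ∨
    EE m0 w p (t + 1) = EE m0 w p t + 1 := by
  unfold EE
  rw [dyn]
  split_ifs
  · exact Or.inr rfl
  · exact Or.inl rfl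

theorem EE_ge (hR : Run P m0 w p z) (t : ℕ) : m0 ≤ EE m0 w p t := (inv hR t).c

theorem EE_pos (hR : Run P m0 w p z) (t : ℕ) : 0 < EE m0 w p t := by
  have h1 := EE_ge hR t
  have h2 := hR.hlt 0
  omega

theorem le_EE (hR : Run P m0 w p z) (t : ℕ) : t + 1 ≤ 3 * EE m0 w p t := by
  obtain ⟨j, hj⟩ := Nat.exists_eq_add_of_le (EE_ge hR t)
  have h1 := inv hR t
  change Inv m0 w p t (EE m0 w p t) _ at h1
  rcases Nat.lt_or_ge t (2 * j) with h2 | h2
  · have := h1.e
    omega
  · have := (h1.some_src hR j (by omega) h2).1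
    omega

/-- the head is in the word -/
theorem head_lt (hR : Run P m0 w p z) (t : ℕ) : p (t / 2) < EE m0 w p t := by
  have h1 := inv hR t
  change Inv m0 w p t (EE m0 w p t) _ at h1
  have h2 := EE_ge hR t
  obtain ⟨j, hj⟩ := Nat.exists_eq_add_of_le h2
  rcases Nat.lt_or_ge j (t / 2) with h3 | h3
  · have h4 := (h1.some_src hR j (by omega) (by omega)).1
    have h5 := p_dec hR h3.le
    omega
  · have h4 := hR.hlt (t / 2)
    omega

/-- the head does not leave the word -/
theorem head_lt' (hR : Run P m0 w p z) (t : ℕ) : p ((t + 1) / 2) < EE m0 w p t := by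
  rcases Nat.even_or_odd t with ⟨j, hj⟩ | ⟨j, hj⟩
  · have h1 : (t + 1) / 2 = t / 2 := by omega
    rw [h1]
    exact head_lt hR t
  · have h1 : (t + 1) / 2 = j + 1 := by omega
    rw [h1]
    have h2 := (p_succ hR j).2
    have h3 := head_lt hR (2 * j)
    have h4 : 2 * j / 2 = j := by omega
    rw [h4] at h3
    rw [hj]
    rcases Nat.lt_or_ge (p j + 1) (EE m0 w p (2 * j)) with h5 | h5
    · rcases EE_succ (m0 := m0) (w := w) (p := p) (2 * j) with h6 | h6 <;> omega
    · have h6 : src m0 w p (2 * j) (dyn m0 w p (2 * j)).2 (EE m0 w p (2 * j) - 1) =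
          some (w (m0 + j)) := by
        unfold src
        rw [h4, if_pos ⟨by omega, by omega⟩]
      have h7 : EE m0 w p (2 * j + 1) = EE m0 w p (2 * j) + 1 := by
        show (dyn m0 w p (2 * j + 1)).1 = _
        rw [dyn]
        have h8 : (src m0 w p (2 * j) (dyn m0 w p (2 * j)).2
            ((dyn m0 w p (2 * j)).1 - 1)).isSome = true := by
          change (src m0 w p (2 * j) (dyn m0 w p (2 * j)).2
            (EE m0 w p (2 * j) - 1)).isSome = true
          rw [h6]
          rfl
        rw [if_pos h8]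
        rfl
      omega

end

end Pool.Agent.V8H44.LC
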