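import Pool.Agent.V8H44.LC.Cells
import Pool.Agent.V8H44.SG.Main

/-!
Words generated with one-sided context.
-/

set_option autoImplicit false

namespace Pool.Agent.V8H44.LC

open Pool.Agent.V8H44.TS Pool.Agent.V8H41.DG Pool.Agent.V8H44.SG

section

variable {d k : ℕ} {P : Proc d k} {m0 : ℕ} {w : ℕ → Fin d} {p : ℕ → ℕ} {z : ℕ → Fin k}

/-- the iterates -/
def GB (m0 : ℕ) (w : ℕ → Fin d) (p : ℕ → ℕ) (z : ℕ → Fin k) : ℕ → List (B d k)
  | 0 => [none]
  | t + 1 => GB m0 w p z t ++ XB m0 w p z t

theorem GB_step (hR : Run P m0 w p z) (q : B d k) (t : ℕ) :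
    T (fun _ x => x) (oB P (XB m0 w p z 0)) q (GB m0 w p z t) = GB m0 w p z (t + 1) := by
  induction t with
  | zero => simp [GB, T, oB]
  | succ t ih =>
    show T (fun _ x => x) (oB P (XB m0 w p z 0)) q (GB m0 w p z t ++ XB m0 w p z t) =
      GB m0 w p z (t + 1) ++ XB m0 w p z (t + 1)
    rw [T_append, ih, XB_step hR]

/-- the letter of the original word -/
def hB : B d k → Option (Fin d)
  | some (c, _, _, _, _, true) => some c
  | _ => none

theorem hB_cell (t r : ℕ) : hB (cell m0 w p z t r) =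
    if Ep m0 w p t ≤ r then some (w r) else none := by
  unfold cell
  by_cases h : Ep m0 w p t ≤ r
  · rw [if_pos h, decide_eq_true h]
    rfl
  · rw [if_neg h, decide_eq_false h]
    rfl

theorem fm_none (t n : ℕ) (h : n ≤ Ep m0 w p t) :
    ((List.range n).map (cell m0 w p z t)).filterMap hB = [] := by
  rw [List.filterMap_eq_nil_iff]
  intro x hx
  rw [List.mem_map] at hx
  obtain ⟨r, hr, rfl⟩ := hx
  rw [List.mem_range] at hr
  rw [hB_cell, if_neg (by omega)]

theorem fm_X0 : (XB m0 w p z 0).filterMap hB = (List.range (EE m0 w p 0)).map w := by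
  unfold XB
  rw [List.filterMap_map, ← List.filterMap_eq_map]
  apply List.filterMap_congr
  intro r _
  show hB (cell m0 w p z 0 r) = some (w r)
  have h1 : Ep m0 w p 0 ≤ r := Nat.zero_le _
  rw [hB_cell, if_pos h1]

theorem fm_GB (t : ℕ) : (GB m0 w p z (t + 1)).filterMap hB =
    (List.range (EE m0 w p t)).map w := by
  induction t with
  | zero =>
    show ([none] ++ XB m0 w p z 0).filterMap hB = _
    rw [List.filterMap_append, fm_X0]
    rfl
  | succ t ih =>
    show (GB m0 w p z (t + 1) ++ XB m0 w p z (t + 1)).filterMap hB = _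
    rw [List.filterMap_append, ih]
    unfold XB
    have h2 : EE m0 w p t ≤ Ep m0 w p (t + 1) := le_rfl
    rcases EE_succ (m0 := m0) (w := w) (p := p) t with h | h
    · rw [fm_none _ _ h.le, List.append_nil, h]
    · rw [h, List.range_succ, List.map_append, List.filterMap_append, fm_none (t + 1) _ h2,
        List.map_append, List.nil_append]
      congr 1
      have h1 : hB (cell m0 w p z (t + 1) (EE m0 w p t)) = some (w (EE m0 w p t)) := by
        have h3 : Ep m0 w p (t + 1) ≤ EE m0 w p t := le_rfl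
        rw [hB_cell, if_pos h3]
      simp [h1]

theorem XB_length (t : ℕ) : (XB m0 w p z t).length = EE m0 w p t := by
  simp [XB]

theorem GB_length (t : ℕ) : (GB m0 w p z (t + 1)).length ≤ 1 + (t + 1) * EE m0 w p t := by
  induction t with
  | zero =>
    show ([none] ++ XB m0 w p z 0).length ≤ _
    rw [List.length_append, XB_length, List.length_singleton]
    omega
  | succ t ih =>
    show (GB m0 w p z (t + 1) ++ XB m0 w p z (t + 1)).length ≤ _
    rw [List.length_append, XB_length]
    rcases EE_succ (m0 := m0) (w := w) (p := p) t with h | h <;> nlinarith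

end

/-- **One-sided context suffices.** -/
theorem exists_left {d p : ℕ} {δ : Fin p → Fin d → Fin p} {q0 : Fin p}
    {out : Fin p → Fin d → List (Fin d)} {a : Fin d} {w : ℕ → Fin d}
    (hne : ∀ s x, out s x ≠ []) (hw : Iterates (dgsm δ q0 out) a w) :
    ∃ (e : ℕ) (out' : Fin e → Fin e → List (Fin e)) (g b : Fin e)
      (v : ℕ → Fin e) (h : Fin e → Option (Fin d)) (C : ℕ),
      (∀ s x, out' s x ≠ []) ∧ Iterates (dgsm (fun _ x => x) g out') b v ∧
      ∃ ν : ℕ → ℕ, ∀ N, ((List.range N).map v).filterMap h = (List.range (ν N)).map w ∧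
        N ≤ C * (ν N + 1) ^ 2 := by
  have hR := run_pc hne hw
  obtain ⟨P, hP⟩ : ∃ P, P = pc δ out := ⟨_, rfl⟩
  rw [← hP] at hR
  obtain ⟨m0, hm0⟩ : ∃ m0, m0 = (out q0 a).length := ⟨_, rfl⟩
  rw [← hm0] at hR
  obtain ⟨pp, hpp⟩ : ∃ pp : ℕ → ℕ, pp = fun j => (tr δ q0 out a w j).1 := ⟨_, rfl⟩
  rw [← hpp] at hR
  obtain ⟨zz, hzz⟩ : ∃ zz : ℕ → Fin (p * lm out),
    zz = fun j => encz out (tr δ q0 out a w j).2.1 (tr δ q0 out a w j).2.2 := ⟨_, rfl⟩
  rw [← hzz] at hR
  obtain ⟨e, ⟨eL⟩⟩ := Finite.exists_equiv_fin (B d (p * lm out))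
  obtain ⟨X, hX⟩ : ∃ X, X = XB m0 w pp zz 0 := ⟨_, rfl⟩
  obtain ⟨out', hout'⟩ : ∃ out' : Fin e → Fin e → List (Fin e),
    out' = fun q' x => (oB P X (eL.symm q') (eL.symm x)).map eL := ⟨_, rfl⟩
  have hT : ∀ u : List (B d (p * lm out)), dgsm (fun _ x => x) (eL none) out' (u.map eL) =
      (T (fun _ x => x) (oB P X) none u).map eL := by
    intro u
    rw [dgsm_eq, hout']
    have h1 := T_conj (fun _ x => x) (oB P X) eL eL u none
    simp only [Equiv.apply_symm_apply] at h1
    exact h1
  have hit : ∀ n, (dgsm (fun _ x => x) (eL none) out')^[n] [eL none] =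
      (GB m0 w pp zz n).map eL := by
    intro n
    induction n with
    | zero => rfl
    | succ n ih =>
      rw [Function.iterate_succ_apply', ih, hT, hX, GB_step hR none n]
  have hXne : ∀ n, (XB m0 w pp zz n).map eL ≠ [] := by
    intro n h
    have h4 := congrArg List.length h
    rw [List.length_map, XB_length] at h4
    have h5 := EE_pos hR n
    have h6 : EE m0 w pp n = 0 := h4
    omega
  have hch : ∀ n, (GB m0 w pp zz (n + 1)).map eL =
      (GB m0 w pp zz n).map eL ++ (XB m0 w pp zz n).map eL := by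
    intro n
    rw [← List.map_append]
    rfl
  have h00 : 0 < ((GB m0 w pp zz 0).map eL).length := Nat.succ_pos _
  obtain ⟨v, hv⟩ := chain_limit (G := fun n => (GB m0 w pp zz n).map eL)
    (X := fun n => (XB m0 w pp zz n).map eL) h00 hch hXne
  have hlen := chain_length (G := fun n => (GB m0 w pp zz n).map eL)
    (X := fun n => (XB m0 w pp zz n).map eL) h00 hch hXne
  obtain ⟨h, hh⟩ : ∃ h : Fin e → Option (Fin d), h = fun x => hB (eL.symm x) := ⟨_, rfl⟩
  have hfm : ∀ l : List (B d (p * lm out)), (l.map eL).filterMap h = l.filterMap hB := by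
    intro l
    rw [List.filterMap_map, hh]
    congr 1
    funext x
    simp
  have hvG : ∀ n, (List.range ((GB m0 w pp zz n).map eL).length).map v =
      (GB m0 w pp zz n).map eL := by
    intro n
    exact (range_map_prefix (hv n)).symm
  have hpre : ∀ n N, N ≤ ((GB m0 w pp zz (n + 1)).map eL).length →
      ((List.range N).map v).filterMap h <+: (List.range (EE m0 w pp n)).map w := by
    intro n N hN
    have h4 := range_map_le v hN
    rw [hvG] at h4
    have h5 := List.IsPrefix.filterMap h4 (f := h)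
    rw [hfm, fm_GB] at h5
    exact h5
  refine ⟨e, out', eL none, eL none, v, h, m0 + 3, ?_, ⟨?_, ?_, ?_⟩,
    fun N => (((List.range N).map v).filterMap h).length, fun N => ⟨?_, ?_⟩⟩
  · intro q x h
    rw [hout'] at h
    exact oB_ne _ _ _ _ (List.map_eq_nil_iff.1 h)
  · have h4 := hit 1
    rw [Function.iterate_one] at h4
    rw [h4, hch]
    exact List.prefix_append _ _
  · intro N
    refine ⟨N, ?_⟩
    rw [hit]
    exact (hlen N).le
  · intro n i hi
    simp only [hit]
    exact hv n i (by rw [hit] at hi; exact hi)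
  · have h4 := hpre N N ((hlen N).le.trans (by rw [hch, List.length_append]; omega))
    exact prefix_range h4
  · show N ≤ (m0 + 3) * ((((List.range N).map v).filterMap h).length + 1) ^ 2
    obtain ⟨μ, hμ⟩ : ∃ μ, μ = (((List.range N).map v).filterMap h).length := ⟨_, rfl⟩
    rw [← hμ]
    have hex : ∃ n, N < ((GB m0 w pp zz n).map eL).length := ⟨N, hlen N⟩
    have h5 := Nat.find_spec hex
    have h6 : ∀ m, m < Nat.find hex → ((GB m0 w pp zz m).map eL).length ≤ N := fun m hm => by
      have := Nat.find_min hex hm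
      omega
    obtain ⟨n, hn⟩ : ∃ n, n = Nat.find hex := ⟨_, rfl⟩
    rw [← hn] at h5 h6
    rw [List.length_map] at h5
    have h7 : 1 ≤ (μ + 1) ^ 2 := Nat.one_le_pow _ _ (Nat.succ_pos _)
    match n, h5, h6 with
    | 0, h5, _ =>
      have h8 : N < 1 := h5
      omega
    | 1, h5, _ =>
      have h8 := GB_length (m0 := m0) (w := w) (p := pp) (z := zz) 0
      have h9 : EE m0 w pp 0 = m0 := rfl
      rw [h9] at h8
      have h10 : (GB m0 w pp zz 1).length ≤ 1 + (0 + 1) * m0 := h8
      nlinarith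
    | n + 2, h5, h6 =>
      have h8 := GB_length (m0 := m0) (w := w) (p := pp) (z := zz) (n + 1)
      have h9 := h6 (n + 1) (by omega)
      have h10 := List.IsPrefix.filterMap (range_map_le v h9) (f := h)
      rw [hvG, hfm, fm_GB] at h10
      have h11 := h10.length_le
      rw [← hμ, List.length_map, List.length_range] at h11
      have h12 : EE m0 w pp (n + 1) ≤ μ + 1 := by
        rcases EE_succ (m0 := m0) (w := w) (p := pp) n with h | h <;> omega
      have h13 := le_EE hR (n + 1)
      have h14 : N ≤ (n + 1 + 1) * EE m0 w pp (n + 1) := by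
        have h15 : (GB m0 w pp zz (n + 1 + 1)).length ≤
          1 + (n + 1 + 1) * EE m0 w pp (n + 1) := h8
        have h16 : N < (GB m0 w pp zz (n + 1 + 1)).length := h5
        omega
      have h15 : (n + 1 + 1) * EE m0 w pp (n + 1) ≤ (3 * (μ + 1)) * (μ + 1) :=
        Nat.mul_le_mul (by omega) h12
      have h16 : (m0 + 3) * (μ + 1) ^ 2 = m0 * (μ + 1) ^ 2 + (3 * (μ + 1)) * (μ + 1) := by ring
      omega

end Pool.Agent.V8H44.LC
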